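import Pool.Agent.Helper71.Sos.T3.D0
import Pool.Agent.Helper71.Sos.T3.D1
import Pool.Agent.Helper71.Sos.T3.D2

/-!
The integral means from the certificate, `κ = 127 / 40`.
-/

set_option autoImplicit false
open Complex MeasureTheory Metric Set
open scoped Real

namespace Pool.Sos71.T3

open Pool.Sos71 Pool.Agent.Helper69.EK6
open Pool.Agent.Helper69.EK3 (InOk OutOk)
open Pool.Agent.Helper69.EK3.Dat (SideOk)

theorem cOk : c.Ok2 (73 / 500) (-97 / 1000) (643 / 500) (-187 / 1000) (-143 / 500) (373 / 1000) (-77 / 500) (12 / 25) (-147 / 1000) (13 / 25) 1 1 3 1 where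
  wf := by decide +kernel
  M0 := by decide +kernel
  lam0 := by decide +kernel
  c10 := by decide +kernel
  fi := by constructor <;> simp only [c] <;> norm_num
  fo := by constructor <;> simp only [c] <;> norm_num
  Ld0 := by norm_num
  Ld0' := by norm_num
  inn := by constructor <;> norm_num [abs_of_nonneg, abs_of_neg, abs_of_pos, abs_of_nonpos]
  out := by constructor <;> norm_num [abs_of_nonneg, abs_of_neg, abs_of_pos, abs_of_nonpos]

theorem good0 (b : Blk) (hb : b ∈ D0.cert.blocks) : Good 3 1 1 b := by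
  simp only [D0.cert, List.mem_cons, List.not_mem_nil, or_false] at hb
  rcases hb with rfl | rfl | rfl | rfl
  · exact Good.one rfl
  · exact Good.ab rfl
  · exact Good.l rfl
  · exact Good.abl rfl

theorem good1 (b : Blk) (hb : b ∈ D1.cert.blocks) : Good 3 3 1 b := by
  simp only [D1.cert, List.mem_cons, List.not_mem_nil, or_false] at hb
  rcases hb with rfl | rfl | rfl | rfl | rfl
  · exact Good.one rfl
  · exact Good.ab rfl
  · exact Good.l rfl
  · exact Good.abl rfl
  · exact Good.d1 rfl (by decide +kernel)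

theorem good2 (b : Blk) (hb : b ∈ D2.cert.blocks) : b.mult = mOne ∨ b.mult = mCen := by
  simp only [D2.cert, List.mem_cons, List.not_mem_nil, or_false] at hb
  rcases hb with rfl | rfl | rfl | rfl
  · exact Or.inl rfl
  · exact Or.inl rfl
  · exact Or.inr rfl
  · exact Or.inr rfl

theorem hIn : Side c.K 1 1 c.tIn := side_of D0.ok (by norm_num) good0

theorem hOut : Side c.K 3 1 c.tOut := side_of D1.ok (by norm_num) good1

theorem hCen (x : Pnt) (h : 0 ≤ -2 * x.f - x.f ^ 2 - x.g ^ 2) : 0 ≤ (Ex.bp c.cen).re x :=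
  cen_of D2.ok good2 x h

theorem moments (p : ℝ) (hp : 127 / 40 ≤ p) : ∃ C : ℝ, ∀ ψ : ℂ → ℂ,
    DifferentiableOn ℂ ψ {z : ℂ | 1 < ‖z‖} → InjOn ψ {z : ℂ | 1 < ‖z‖} →
    (∃ b : ℂ, Filter.Tendsto (fun z => ψ z - z) (Bornology.cobounded ℂ) (nhds b)) →
    ∀ R : ℝ, 1 < R →
      (2 * π)⁻¹ * (∫ θ in (0:ℝ)..(2 * π), ‖deriv ψ (R * Complex.exp (θ * I))‖ ^ (-p)) ≤
        C * (R ^ 2 / (R ^ 2 - 1)) ^ (p - 1) := by
  refine cOk.moments hIn hOut hCen (κ := 127 / 40) (by norm_num) ?_ p hp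
  have h : (c.lam : ℝ) + c.c1 + (c.c1 + 2 * |(c.a2 : ℝ)|) / 10 ^ 7 <
      2 * (127 / 40) * c.M := by
    simp only [c]
    norm_num
  exact h

end Pool.Sos71.T3
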